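import Mathlib
import Pool.Agent.X128.Eroder

/-!
# The generic configuration is an attractor of the flattening automaton
-/

set_option autoImplicit false

namespace Pool.Agent.Results.MP_851083_pr.GenericAttractors

open Filter Topology

/-- A configuration assigns 0 (false) or 1 (true) to every site of the plane lattice. -/
abbrev Config : Type := ℤ × ℤ → Bool

/-- The local rule `max (min a b) (min c d)` on bits. -/
def flat (a b c d : Bool) : Bool := (a && b) || (c && d)

/-- One step of the flattening automaton. -/
def F (x : Config) : Config := fun v =>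
  flat (x (v.1, v.2)) (x (v.1, v.2 - 1)) (x (v.1 - 1, v.2)) (x (v.1 - 1, v.2 - 1))

/-- The trajectory: `TR y s k` is the state of `s` at time `k - 1`, so that index `0` is the initial
configuration. -/
def TR (y : Config) (s : ℤ × ℤ) (k : ℕ) : Bool := F^[k] y s

/-- Two configurations are finite perturbations of each other: they lie in the same bunch. -/
def FinitePert (y y' : Config) : Prop := {s : ℤ × ℤ | y s ≠ y' s}.Finite

/-- The attractor property: the trajectory of every finite perturbation is a finite
perturbation of the trajectory. -/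
def IsAttractor (y : Config) : Prop :=
  ∀ y' : Config, FinitePert y y' → {p : (ℤ × ℤ) × ℕ | TR y p.1 p.2 ≠ TR y' p.1 p.2}.Finite

theorem local_F : X128.Eroder.Local F := by
  intro s s' v h
  have h0 : s (v.1, v.2) = s' (v.1, v.2) := h _ (by simp [X128.Eroder.nrm])
  have h1 : s (v.1, v.2 - 1) = s' (v.1, v.2 - 1) := h _ (by simp [X128.Eroder.nrm])
  have h2 : s (v.1 - 1, v.2) = s' (v.1 - 1, v.2) := h _ (by simp [X128.Eroder.nrm])
  have h3 : s (v.1 - 1, v.2 - 1) = s' (v.1 - 1, v.2 - 1) := h _ (by simp [X128.Eroder.nrm])
  unfold F
  rw [h0, h1, h2, h3]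

theorem fix_F : X128.Eroder.FixConst F := by
  intro b
  funext s
  cases b <;> rfl

/-- Erosion of islands of ones: the lower boundary moves up with speed one. -/
theorem erode_ones (m M : ℕ) (y : Config)
    (hy : ∀ v : ℤ × ℤ, m < X128.Eroder.nrm v → X128.Eroder.nrm v ≤ M → y v = false) :
    ∀ t : ℕ, ∀ v : ℤ × ℤ, X128.Eroder.nrm v + t ≤ M → F^[t] y v = true →
      -(m : ℤ) + t ≤ v.2 ∧ v.2 ≤ m := by
  intro t
  induction t with
  | zero =>
    intro v hv hne
    have h1 : X128.Eroder.nrm v ≤ m := by
      by_contra hcon
      have := hy v (by omega) (by omega)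
      simp [this] at hne
    rw [X128.Eroder.nrm_le_of] at h1
    omega
  | succ t ih =>
    intro v hv hne
    rw [Function.iterate_succ_apply'] at hne
    have n : ∀ a b : ℤ, (a = 0 ∨ a = 1) → (b = 0 ∨ b = 1) →
        X128.Eroder.nrm (v.1 - a, v.2 - b) + t ≤ M := by
      intro a b ha hb
      unfold X128.Eroder.nrm at *
      simp only
      omega
    have i0 := ih (v.1, v.2) (by simpa using n 0 0 (by simp) (by simp))
    have i1 := ih (v.1, v.2 - 1) (by simpa using n 0 1 (by simp) (by simp))
    have i2 := ih (v.1 - 1, v.2) (by simpa using n 1 0 (by simp) (by simp))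
    have i3 := ih (v.1 - 1, v.2 - 1) (by simpa using n 1 1 (by simp) (by simp))
    simp only [F, flat, Bool.or_eq_true, Bool.and_eq_true] at hne
    push_cast
    rcases hne with ⟨ha, hb⟩ | ⟨ha, hb⟩
    · have := i0 ha
      have := i1 hb
      simp only at *
      omega
    · have := i2 ha
      have := i3 hb
      simp only at *
      omega

/-- Erosion of islands of zeroes: the left boundary moves right with speed one. -/
theorem erode_zeroes (m M : ℕ) (y : Config)
    (hy : ∀ v : ℤ × ℤ, m < X128.Eroder.nrm v → X128.Eroder.nrm v ≤ M → y v = true) :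
    ∀ t : ℕ, ∀ v : ℤ × ℤ, X128.Eroder.nrm v + t ≤ M → F^[t] y v = false →
      -(m : ℤ) + t ≤ v.1 ∧ v.1 ≤ m := by
  intro t
  induction t with
  | zero =>
    intro v hv hne
    have h1 : X128.Eroder.nrm v ≤ m := by
      by_contra hcon
      have := hy v (by omega) (by omega)
      simp [this] at hne
    rw [X128.Eroder.nrm_le_of] at h1
    omega
  | succ t ih =>
    intro v hv hne
    rw [Function.iterate_succ_apply'] at hne
    have n : ∀ a b : ℤ, (a = 0 ∨ a = 1) → (b = 0 ∨ b = 1) →
        X128.Eroder.nrm (v.1 - a, v.2 - b) + t ≤ M := by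
      intro a b ha hb
      unfold X128.Eroder.nrm at *
      simp only
      omega
    have i0 := ih (v.1, v.2) (by simpa using n 0 0 (by simp) (by simp))
    have i1 := ih (v.1, v.2 - 1) (by simpa using n 0 1 (by simp) (by simp))
    have i2 := ih (v.1 - 1, v.2) (by simpa using n 1 0 (by simp) (by simp))
    have i3 := ih (v.1 - 1, v.2 - 1) (by simpa using n 1 1 (by simp) (by simp))
    simp only [F, flat, Bool.or_eq_false_iff, Bool.and_eq_false_iff] at hne
    push_cast
    obtain ⟨ha | ha, hb | hb⟩ := hne
    · have := i0 ha
      have := i2 hb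
      simp only at *
      omega
    · have := i0 ha
      have := i3 hb
      simp only at *
      omega
    · have := i1 ha
      have := i2 hb
      simp only at *
      omega
    · have := i1 ha
      have := i3 hb
      simp only at *
      omega

theorem erodes_F : X128.Eroder.Erodes F := by
  intro m M c y hy t ht v hv
  cases c with
  | false =>
    by_contra hne
    have := erode_ones m M y hy t v hv (by simpa using hne)
    omega
  | true =>
    by_contra hne
    have := erode_zeroes m M y hy t v hv (by simpa using hne)
    omega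

/-- **The generic configuration is an attractor of the flattening automaton, outside both constant
bunches.** (1) For all configurations `y` outside a meager subset of the compact space of all
configurations (product topology): `y` is an attractor, no iterate of `y` lies in the bunch
of one of the two constant configurations, and for each of the two values there are arbitrarily late
times at which the trajectory has this value on an arbitrarily large box, so both constant
configurations are limit points of the trajectory. (2) There are continuum many such attractors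
`S x`, `x : ℕ → Bool`, such that for different `x`, `x'` no iterate of `S x` lies in the bunch of an
iterate of `S x'`. -/
theorem result :
    (∀ᶠ y in residual Config, IsAttractor y ∧
      (∀ (k : ℕ) (b : Bool), ¬ FinitePert (fun s => TR y s k) (fun _ => b)) ∧
      ∀ (b : Bool) (R T : ℕ), ∃ k, T ≤ k ∧
        ∀ s : ℤ × ℤ, s.1.natAbs ≤ R → s.2.natAbs ≤ R → TR y s k = b) ∧
    (∃ S : (ℕ → Bool) → Config,
      (∀ x, IsAttractor (S x) ∧
        (∀ (k : ℕ) (b : Bool), ¬ FinitePert (fun s => TR (S x) s k) (fun _ => b)) ∧
        ∀ (b : Bool) (R T : ℕ), ∃ k, T ≤ k ∧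
          ∀ s : ℤ × ℤ, s.1.natAbs ≤ R → s.2.natAbs ≤ R → TR (S x) s k = b) ∧
      ∀ x x', x ≠ x' → ∀ k k' : ℕ,
        ¬ FinitePert (fun s => TR (S x) s k) (fun s => TR (S x') s k')) := by
  obtain ⟨h1, S, h2, h3⟩ := X128.Eroder.main local_F erodes_F fix_F
  refine ⟨?_, S, ?_, h3⟩
  · filter_upwards [h1] with y hy
    refine ⟨hy.1, hy.2.1, fun b R T => ?_⟩
    obtain ⟨k, hk, hk2⟩ := hy.2.2 b R T
    exact ⟨k, hk, fun s a b => hk2 s ((X128.Eroder.nrm_le_of s R).2 ⟨a, b⟩)⟩
  · intro x
    refine ⟨(h2 x).1, (h2 x).2.1, fun b R T => ?_⟩
    obtain ⟨k, hk, hk2⟩ := (h2 x).2.2 b R T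
    exact ⟨k, hk, fun s a b => hk2 s ((X128.Eroder.nrm_le_of s R).2 ⟨a, b⟩)⟩

end Pool.Agent.Results.MP_851083_pr.GenericAttractors
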